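import Pool.Agent.X194.BV.Walk

/-! Approximation of maps with dense periodic points by piecewise linear ones. -/

namespace Pool.Agent.X194.BV

open Set Topology Filter

/-- density of periodic points of a real map in `[0,1]` -/
def PD (F : ℝ → ℝ) : Prop :=
  ∀ a b, 0 ≤ a → a < b → b ≤ 1 → ∃ x, a < x ∧ x < b ∧ ∃ n, 0 < n ∧ F^[n] x = x

/-- closed interval of the grid -/
def J (m i : ℕ) : Set ℝ := Icc ((i : ℝ) / m) (((i : ℝ) + 1) / m)

theorem exists_dat {F : ℝ → ℝ} (hF : Continuous F) (hmem : ∀ x, F x ∈ Icc (0 : ℝ) 1) (hP : PD F)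
    {ε : ℝ} (hε : 0 < ε) (K : ℕ) (hK : 5 ≤ K) :
    ∃ D : Dat, D.K = K ∧ ∀ x ∈ Icc (0 : ℝ) 1, |D.G (D.N * x) / D.N - F x| < ε := by
  classical
  -- uniform continuity
  obtain ⟨δ, hδ, hunif⟩ : ∃ δ > 0, ∀ x ∈ Icc (0 : ℝ) 1, ∀ y ∈ Icc (0 : ℝ) 1, |x - y| < δ →
      |F x - F y| < ε / 2 := by
    have h1 := (isCompact_Icc (a := (0 : ℝ)) (b := 1)).uniformContinuousOn_of_continuous
      hF.continuousOn
    rw [Metric.uniformContinuousOn_iff] at h1
    obtain ⟨δ, hδ, h2⟩ := h1 (ε / 2) (by linarith)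
    exact ⟨δ, hδ, fun x hx y hy h => h2 x hx y hy h⟩
  obtain ⟨m, hm⟩ := exists_nat_gt (max (1 / δ) (2 / ε))
  have hm1 : 1 / δ < m := lt_of_le_of_lt (le_max_left _ _) hm
  have hm2 : 2 / ε < m := lt_of_le_of_lt (le_max_right _ _) hm
  have hmpos : (0 : ℝ) < m := lt_trans (by positivity) hm1
  have hm0 : 0 < m := by exact_mod_cast hmpos
  have hmδ : 1 / (m : ℝ) < δ := by
    rw [div_lt_iff₀ hmpos]; rw [div_lt_iff₀ hδ] at hm1; linarith
  have hmε : 1 / (m : ℝ) < ε / 2 := by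
    rw [div_lt_iff₀ hmpos]; rw [div_lt_iff₀ hε] at hm2; linarith
  have hJne : ∀ i : ℕ, (i : ℝ) / m ≤ ((i : ℝ) + 1) / m := fun i =>
    div_le_div_of_nonneg_right (by linarith) hmpos.le
  have hJ01 : ∀ i < m, J m i ⊆ Icc 0 1 := by
    intro i hi
    refine Icc_subset_Icc (by positivity) ?_
    rw [div_le_one hmpos]
    exact_mod_cast hi
  have hpq : ∀ i : ℕ, ∃ p ∈ J m i, ∃ q ∈ J m i, ∀ x ∈ J m i, F p ≤ F x ∧ F x ≤ F q := by
    intro i
    obtain ⟨p, hp, hp'⟩ := (isCompact_Icc (a := (i : ℝ) / m) (b := ((i : ℝ) + 1) / m)).exists_isMinOn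
      (nonempty_Icc.2 (hJne i)) hF.continuousOn
    obtain ⟨q, hq, hq'⟩ := (isCompact_Icc (a := (i : ℝ) / m) (b := ((i : ℝ) + 1) / m)).exists_isMaxOn
      (nonempty_Icc.2 (hJne i)) hF.continuousOn
    exact ⟨p, hp, q, hq, fun x hx => ⟨hp' hx, hq' hx⟩⟩
  choose p hp q hq hpq using hpq
  -- non-constancy
  have hlt : ∀ i < m, F (p i) < F (q i) := by
    intro i hi
    by_contra hcon
    push Not at hcon
    have hlen : (i : ℝ) / m < ((i : ℝ) + 1) / m := div_lt_div_of_pos_right (by linarith) hmpos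
    have h01 : ((i : ℝ) + 1) / m ≤ 1 := by
      rw [div_le_one hmpos]; exact_mod_cast hi
    obtain ⟨x, hx1, hx2, n, hn, hxn⟩ := hP _ _ (by positivity) hlen h01
    obtain ⟨y, hy1, hy2, k, hk, hyk⟩ := hP _ x (by positivity) hx1 (by linarith)
    have hxJ : x ∈ J m i := ⟨hx1.le, hx2.le⟩
    have hyJ : y ∈ J m i := ⟨hy1.le, by linarith⟩
    have h1 := hpq i x hxJ
    have h2 := hpq i y hyJ
    have hxy : F x = F y := by linarith
    have : x = y := Function.IsPeriodicPt.eq_of_apply_eq (f := F) (m := n) (n := k) hxn hyk hn hk hxy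
    linarith
  set lo : ℕ → ℕ := fun i => ⌊m * F (p i)⌋₊ with hlo
  set hi : ℕ → ℕ := fun i => ⌈m * F (q i)⌉₊ with hhi
  have hF0 : ∀ x, 0 ≤ (m : ℝ) * F x := fun x => mul_nonneg hmpos.le (hmem x).1
  have hlo1 : ∀ i, (lo i : ℝ) ≤ m * F (p i) := fun i => Nat.floor_le (hF0 _)
  have hlo2 : ∀ i, m * F (p i) < (lo i : ℝ) + 1 := fun i => Nat.lt_floor_add_one _
  have hhi1 : ∀ i, m * F (q i) ≤ (hi i : ℝ) := fun i => Nat.le_ceil _
  have hhi2 : ∀ i, (hi i : ℝ) < m * F (q i) + 1 := fun i => Nat.ceil_lt_add_one (hF0 _)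
  have hlohi : ∀ i < m, lo i < hi i := by
    intro i hi'
    have h1 := hlt i hi'
    have h2 : (lo i : ℝ) < hi i := by nlinarith [hlo1 i, hhi1 i]
    exact_mod_cast h2
  have hhim : ∀ i < m, hi i ≤ m := by
    intro i _
    refine Nat.ceil_le.2 ?_
    nlinarith [(hmem (q i)).2]
  -- successor of a point
  have hstep : ∀ i < m, ∀ x ∈ J m i, ∃ k, lo i ≤ k ∧ k < hi i ∧ F x ∈ J m k := by
    intro i hi' x hx
    obtain ⟨h1, h2⟩ := hpq i x hx
    have h3 : (m : ℝ) * F (p i) ≤ m * F x := mul_le_mul_of_nonneg_left h1 hmpos.le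
    have h4 : (m : ℝ) * F x ≤ m * F (q i) := mul_le_mul_of_nonneg_left h2 hmpos.le
    have hl := hlohi i hi'
    rcases (h4.trans (hhi1 i)).lt_or_eq with h | h
    · refine ⟨⌊(m : ℝ) * F x⌋₊, Nat.floor_mono h3, (Nat.floor_lt (hF0 _)).2 h, ?_, ?_⟩
      · rw [div_le_iff₀ hmpos, mul_comm (F x)]; exact Nat.floor_le (hF0 _)
      · rw [le_div_iff₀ hmpos, mul_comm (F x)]; exact (Nat.lt_floor_add_one _).le
    · refine ⟨hi i - 1, by omega, by omega, ?_, ?_⟩
      · rw [div_le_iff₀ hmpos, mul_comm (F x), h, Nat.cast_sub (by omega)]; push_cast; linarith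
      · rw [le_div_iff₀ hmpos, mul_comm (F x), h, Nat.cast_sub (by omega)]; push_cast; linarith
  have hrecur : ∀ i < m, ∀ k, lo i ≤ k → k < hi i →
      Relation.ReflTransGen (fun a b => a < m ∧ lo a ≤ b ∧ b < hi a) k i := by
    intro i hi' k hk1 hk2
    have hkm : k < m := lt_of_lt_of_le hk2 (hhim i hi')
    have h1 : F (p i) < ((k : ℝ) + 1) / m := by
      rw [lt_div_iff₀ hmpos, mul_comm]
      have : (lo i : ℝ) ≤ k := by exact_mod_cast hk1
      linarith [hlo2 i]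
    have h2 : (k : ℝ) / m < F (q i) := by
      rw [div_lt_iff₀ hmpos, mul_comm]
      exact Nat.lt_ceil.1 hk2
    have hk3 : (k : ℝ) / m < ((k : ℝ) + 1) / m := div_lt_div_of_pos_right (by linarith) hmpos
    obtain ⟨w, hw1, hw2⟩ : ∃ w, max (F (p i)) ((k : ℝ) / m) < w ∧
        w < min (F (q i)) (((k : ℝ) + 1) / m) := by
      apply exists_between
      exact max_lt (lt_min (hlt i hi') h1) (lt_min h2 hk3)
    obtain ⟨hw3, hw4⟩ := max_lt_iff.1 hw1
    obtain ⟨hw5, hw6⟩ := lt_min_iff.1 hw2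
    obtain ⟨y, hy, hyw⟩ : w ∈ F '' uIcc (p i) (q i) :=
      intermediate_value_uIcc hF.continuousOn (mem_uIcc.2 (Or.inl ⟨hw3.le, hw5.le⟩))
    have hyJ : y ∈ J m i := uIcc_subset_Icc (hp i) (hq i) hy
    have hlen : (i : ℝ) / m < ((i : ℝ) + 1) / m := div_lt_div_of_pos_right (by linarith) hmpos
    have hopen : IsOpen (F ⁻¹' Ioo ((k : ℝ) / m) (((k : ℝ) + 1) / m)) :=
      isOpen_Ioo.preimage hF
    obtain ⟨y', hy'1, hy'2⟩ : (F ⁻¹' Ioo ((k : ℝ) / m) (((k : ℝ) + 1) / m) ∩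
        Ioo ((i : ℝ) / m) (((i : ℝ) + 1) / m)).Nonempty := by
      have hcl : y ∈ closure (Ioo ((i : ℝ) / m) (((i : ℝ) + 1) / m)) := by
        rw [closure_Ioo hlen.ne]; exact hyJ
      refine mem_closure_iff.1 hcl _ hopen ?_
      rw [mem_preimage, hyw]; exact ⟨hw4, hw6⟩
    obtain ⟨r, hr, hball⟩ := Metric.isOpen_iff.1 (hopen.inter isOpen_Ioo) y' ⟨hy'1, hy'2⟩
    have hin : ∀ t, y' ≤ t → t ≤ y' + r / 2 → t ∈ F ⁻¹' Ioo ((k : ℝ) / m) (((k : ℝ) + 1) / m) ∩
        Ioo ((i : ℝ) / m) (((i : ℝ) + 1) / m) := by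
      intro t ht1 ht2
      apply hball
      rw [Metric.mem_ball, Real.dist_eq, abs_of_nonneg (by linarith)]
      linarith
    have hb := hin (y' + r / 2) (by linarith) le_rfl
    have h01 : ((i : ℝ) + 1) / m ≤ 1 := by
      rw [div_le_one hmpos]; exact_mod_cast hi'
    obtain ⟨x, hx1, hx2, n, hn, hxn⟩ := hP y' (y' + r / 2)
      (le_trans (by positivity) hy'2.1.le) (by linarith) (hb.2.2.le.trans h01)
    have hxin := hin x hx1.le hx2.le
    have horb : ∀ s, ∃ a < m, Relation.ReflTransGen (fun a b => a < m ∧ lo a ≤ b ∧ b < hi a) k a ∧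
        F^[s] (F x) ∈ J m a := by
      intro s
      induction s with
      | zero => exact ⟨k, hkm, Relation.ReflTransGen.refl, hxin.1.1.le, hxin.1.2.le⟩
      | succ s ih =>
        obtain ⟨a, ha, hka, hxa⟩ := ih
        obtain ⟨b, hb1, hb2, hb3⟩ := hstep a ha _ hxa
        rw [Function.iterate_succ_apply']
        exact ⟨b, lt_of_lt_of_le hb2 (hhim a ha), hka.tail ⟨ha, hb1, hb2⟩, hb3⟩
    obtain ⟨a, ha, hka, hxa⟩ := horb (n - 1)
    rw [← Function.iterate_succ_apply, show (n - 1).succ = n by omega, hxn] at hxa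
    have e1 : a < i + 1 := by
      have h3 : (a : ℝ) / m < ((i : ℝ) + 1) / m := lt_of_le_of_lt hxa.1 hxin.2.2
      rw [div_lt_div_iff_of_pos_right hmpos] at h3
      exact_mod_cast h3
    have e2 : i < a + 1 := by
      have h3 : (i : ℝ) / m < ((a : ℝ) + 1) / m := lt_of_lt_of_le hxin.2.1 hxa.2
      rw [div_lt_div_iff_of_pos_right hmpos] at h3
      exact_mod_cast h3
    have : a = i := by omega
    rw [this] at hka
    exact hka
  -- boundary values
  set v : ℕ → ℕ := fun j => ⌊(m : ℝ) * F ((j : ℝ) / (2 * m))⌋₊ with hv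
  have hvin : ∀ i < m, ∀ j : ℕ, (j : ℝ) / (2 * m) ∈ J m i → lo i ≤ v j ∧ v j ≤ hi i := by
    intro i _ j hj
    obtain ⟨h1, h2⟩ := hpq i _ hj
    refine ⟨Nat.floor_mono (mul_le_mul_of_nonneg_left h1 hmpos.le), ?_⟩
    have h3 : (v j : ℝ) ≤ m * F ((j : ℝ) / (2 * m)) := Nat.floor_le (hF0 _)
    have h4 : (v j : ℝ) ≤ hi i := by
      refine h3.trans (le_trans (mul_le_mul_of_nonneg_left h2 hmpos.le) (hhi1 i))
    exact_mod_cast h4
  have hjJ : ∀ i j : ℕ, 2 * i ≤ j → j ≤ 2 * i + 2 → (j : ℝ) / (2 * m) ∈ J m i := by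
    intro i j h1 h2
    have h1' : (2 : ℝ) * i ≤ j := by exact_mod_cast h1
    have h2' : (j : ℝ) ≤ 2 * i + 2 := by exact_mod_cast h2
    constructor
    · rw [div_le_div_iff₀ hmpos (by positivity)]; nlinarith
    · rw [div_le_div_iff₀ (by positivity) hmpos]; nlinarith
  obtain ⟨D, hDM, hDK, hDlo, hDhi⟩ := Base.toDat
    { m := m, K := K, lo := lo, hi := hi, v := v, hm := hm0, hK := hK, lohi := hlohi,
      hhi := hhim, recur := hrecur,
      hv := by
        intro j hj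
        exact ⟨hvin (j / 2) (by omega) j (hjJ (j / 2) j (by omega) (by omega)),
          hvin (j / 2) (by omega) (j + 1) (hjJ (j / 2) (j + 1) (by omega) (by omega))⟩ }
  dsimp only at hDM hDK hDlo hDhi
  refine ⟨D, hDK, ?_⟩
  intro x hx
  have hNe : (D.N : ℝ) = 2 * m * K := by
    unfold Dat.N; rw [hDM, hDK]; push_cast; ring
  have hKr : (0 : ℝ) < K := by exact_mod_cast (show 0 < K by omega)
  have hNpos : (0 : ℝ) < D.N := by rw [hNe]; positivity
  obtain ⟨r, hr, hr1, hr2⟩ := D.exists_lap (x := D.N * x) (mul_nonneg hNpos.le hx.1)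
    (by nlinarith [hx.2])
  obtain ⟨g1, g2⟩ := D.G_mem hr hr1 hr2
  have hjM := D.lt_of_div hr
  rw [hDlo, hDK] at g1
  rw [hDhi, hDK] at g2
  rw [hDK, hDM] at hjM
  set j := r / K with hj
  have hdm := Nat.div_add_mod r K
  have hmod := Nat.mod_lt r (show 0 < K by omega)
  have hi' : j / 2 < m := by omega
  have f1 : j * K ≤ r := Nat.div_mul_le_self _ _
  have f2 : r + 1 ≤ (j + 1) * K := by
    have : (j + 1) * K = K * (r / K) + K := by rw [hj]; ring
    omega
  have hxJ : x ∈ J m (j / 2) := by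
    have hd1 : 2 * (j / 2) ≤ j := by omega
    have hd2 : j + 1 ≤ 2 * (j / 2) + 2 := by omega
    have f3 : 2 * (j / 2) * K ≤ r := le_trans (Nat.mul_le_mul_right _ hd1) f1
    have f4 : r + 1 ≤ (2 * (j / 2) + 2) * K := le_trans f2 (Nat.mul_le_mul_right _ hd2)
    have f3' : (2 : ℝ) * (j / 2 : ℕ) * K ≤ r := by exact_mod_cast f3
    have f4' : (r : ℝ) + 1 ≤ (2 * (j / 2 : ℕ) + 2) * K := by exact_mod_cast f4
    constructor
    · rw [div_le_iff₀ hmpos]
      rw [hNe] at hr1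
      have : (2 * (K : ℝ)) * (j / 2 : ℕ) ≤ (2 * (K : ℝ)) * (x * m) := by nlinarith
      exact le_of_mul_le_mul_left this (by positivity)
    · rw [le_div_iff₀ hmpos]
      rw [hNe] at hr2
      have : (2 * (K : ℝ)) * (x * m) ≤ (2 * (K : ℝ)) * ((j / 2 : ℕ) + 1) := by nlinarith
      exact le_of_mul_le_mul_left this (by positivity)
  obtain ⟨k1, k2⟩ := hpq (j / 2) x hxJ
  have k3 := hunif (q (j / 2)) (hJ01 _ hi' (hq _)) (p (j / 2)) (hJ01 _ hi' (hp _)) (by
    refine lt_of_le_of_lt ?_ hmδ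
    obtain ⟨a1, a2⟩ := hq (j / 2)
    obtain ⟨b1, b2⟩ := hp (j / 2)
    have e : (((j / 2 : ℕ) : ℝ) + 1) / m = ((j / 2 : ℕ) : ℝ) / m + 1 / m := by ring
    rw [e] at a2 b2
    rw [abs_le]; constructor <;> linarith)
  have k4 := (abs_lt.1 k3).2
  have l1 := hlo2 (j / 2)
  have l2 := hhi2 (j / 2)
  have g1' : (lo (j / 2) : ℝ) / m ≤ D.G (D.N * x) / D.N := by
    rw [div_le_div_iff₀ hmpos hNpos, hNe]
    push_cast at g1
    rw [hNe] at g1
    nlinarith
  have g2' : D.G (D.N * x) / D.N ≤ (hi (j / 2) : ℝ) / m := by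
    rw [div_le_div_iff₀ hNpos hmpos, hNe]
    push_cast at g2
    rw [hNe] at g2
    nlinarith
  have l1' : F (p (j / 2)) - 1 / m < (lo (j / 2) : ℝ) / m := by
    rw [lt_div_iff₀ hmpos, sub_mul, div_mul_cancel₀ _ hmpos.ne']; linarith
  have l2' : (hi (j / 2) : ℝ) / m < F (q (j / 2)) + 1 / m := by
    rw [div_lt_iff₀ hmpos, add_mul, div_mul_cancel₀ _ hmpos.ne']; linarith
  rw [abs_lt]
  constructor <;> linarith

namespace Dat

variable (D : Dat)

/-- local minima of slightly tilted `G` are `V`-shaped grid points -/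
lemma locmin {σ : ℝ} (hσ0 : 0 ≤ σ) (hσ : σ < D.K) {C : ℝ} (hC0 : 0 < C) (hC1 : C < D.N)
    {δ : ℝ} (hδ : 0 < δ) (h : ∀ Y, |Y - C| < δ → D.G C - σ * C ≤ D.G Y - σ * Y) :
    1 ≤ C ∧ C + 1 ≤ D.N ∧ ∀ Y, |Y - C| ≤ 1 → D.G C + D.K * |Y - C| ≤ D.G Y := by
  have hK := D.hK
  have hKr : (0 : ℝ) < D.K := by exact_mod_cast (show 0 < D.K by omega)
  have hfl := Nat.floor_le hC0.le
  have hfl2 := Nat.lt_floor_add_one C
  have hrN : ⌊C⌋₊ < D.N := (Nat.floor_lt hC0.le).2 hC1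
  set r := ⌊C⌋₊ with hr
  have hne := D.ne r hrN
  rcases hfl.lt_or_eq with hlt | heq
  · -- interior of a lap
    exfalso
    set d := min (δ / 2) (min (C - r) (r + 1 - C)) with hd
    have hd0 : 0 < d := lt_min (by linarith) (lt_min (by linarith) (by linarith))
    have hd1 : d ≤ δ / 2 := min_le_left _ _
    have hd2 : d ≤ C - r := (min_le_right _ _).trans (min_le_left _ _)
    have hd3 : d ≤ r + 1 - C := (min_le_right _ _).trans (min_le_right _ _)
    have h1 := h (C + d) (by rw [add_sub_cancel_left, abs_of_pos hd0]; linarith)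
    have h2 := h (C - d) (by rw [sub_sub_cancel_left, abs_neg, abs_of_pos hd0]; linarith)
    rw [D.G_eq hrN hlt.le hfl2.le, D.G_eq hrN (x := C + d) (by linarith) (by linarith)] at h1
    rw [D.G_eq hrN hlt.le hfl2.le, D.G_eq hrN (x := C - d) (by linarith) (by linarith)] at h2
    set s : ℝ := (D.u (r + 1) : ℝ) - D.u r with hs
    have h3 : d * (D.K * s - σ) = 0 := by nlinarith
    have h4 : (D.K : ℝ) * s = σ := by
      rcases mul_eq_zero.1 h3 with h5 | h5
      · linarith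
      · linarith
    rcases lt_or_gt_of_ne hne with h5 | h5
    · have : (1 : ℝ) ≤ s := by
        have : (D.u r : ℝ) + 1 ≤ D.u (r + 1) := by exact_mod_cast h5
        linarith
      nlinarith
    · have : s ≤ -1 := by
        have : (D.u (r + 1) : ℝ) + 1 ≤ D.u r := by exact_mod_cast h5
        linarith
      nlinarith
  · -- a grid point
    have hr0 : 0 < r := by
      rcases Nat.eq_zero_or_pos r with h0 | h0
      · rw [h0] at heq; simp at heq; linarith
      · exact h0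
    have hr1 : r - 1 < D.N := by omega
    have hrc : ((r - 1 : ℕ) : ℝ) = r - 1 := by rw [Nat.cast_sub hr0]; norm_num
    have hne' := D.ne (r - 1) hr1
    rw [show r - 1 + 1 = r by omega] at hne'
    have GRf : ∀ Y, (r : ℝ) ≤ Y → Y ≤ r + 1 → D.G Y =
        D.G r + (Y - r) * (D.K * ((D.u (r + 1) : ℝ) - D.u r)) := by
      intro Y h1 h2
      rw [D.G_eq hrN h1 h2, D.G_nat hrN.le]; ring
    have GLf : ∀ Y, (r : ℝ) - 1 ≤ Y → Y ≤ r → D.G Y =
        D.G r + (Y - r) * (D.K * ((D.u r : ℝ) - D.u (r - 1))) := by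
      intro Y h1 h2
      rw [D.G_eq hr1 (by rw [hrc]; exact h1) (by rw [hrc]; linarith), D.G_nat hrN.le,
        show r - 1 + 1 = r by omega, hrc]; ring
    set d := min (δ / 2) 1 with hd
    have hd0 : 0 < d := lt_min (by linarith) one_pos
    have hd1 : d ≤ δ / 2 := min_le_left _ _
    have hd2 : d ≤ 1 := min_le_right _ _
    have h1 := h (C + d) (by rw [add_sub_cancel_left, abs_of_pos hd0]; linarith)
    have h2 := h (C - d) (by rw [sub_sub_cancel_left, abs_neg, abs_of_pos hd0]; linarith)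
    rw [← heq] at h1 h2
    rw [GRf (r + d) (by linarith) (by linarith)] at h1
    rw [GLf (r - d) (by linarith) (by linarith)] at h2
    have sR : (1 : ℝ) ≤ (D.u (r + 1) : ℝ) - D.u r := by
      rcases lt_or_gt_of_ne hne with h5 | h5
      · have : (D.u r : ℝ) + 1 ≤ D.u (r + 1) := by exact_mod_cast h5
        linarith
      · exfalso
        have : (D.u (r + 1) : ℝ) + 1 ≤ D.u r := by exact_mod_cast h5
        have h6 : D.K * ((D.u (r + 1) : ℝ) - D.u r) ≤ -D.K := by nlinarith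
        nlinarith
    have sL : (D.u r : ℝ) - D.u (r - 1) ≤ -1 := by
      rcases lt_or_gt_of_ne hne' with h5 | h5
      · exfalso
        have : (D.u (r - 1) : ℝ) + 1 ≤ D.u r := by exact_mod_cast h5
        have h6 : (D.K : ℝ) ≤ D.K * ((D.u r : ℝ) - D.u (r - 1)) := by nlinarith
        nlinarith
      · have : (D.u r : ℝ) + 1 ≤ D.u (r - 1) := by exact_mod_cast h5
        linarith
    rw [← heq]
    refine ⟨by exact_mod_cast hr0, by exact_mod_cast hrN, ?_⟩
    intro Y hY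
    rcases le_total (r : ℝ) Y with h5 | h5
    · rw [abs_of_nonneg (by linarith)] at hY ⊢
      rw [GRf Y h5 (by linarith)]
      have : (D.K : ℝ) ≤ D.K * ((D.u (r + 1) : ℝ) - D.u r) := by nlinarith
      nlinarith
    · rw [abs_of_nonpos (by linarith)] at hY ⊢
      rw [GLf Y (by linarith) h5]
      have : D.K * ((D.u r : ℝ) - D.u (r - 1)) ≤ -D.K := by nlinarith
      nlinarith

/-- existence of a `V`-shaped grid point -/
lemma exists_V : ∃ C : ℝ, 1 ≤ C ∧ C + 1 ≤ D.N ∧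
    ∀ Y, |Y - C| ≤ 1 → D.G C + D.K * |Y - C| ≤ D.G Y := by
  have hK := D.hK
  have hKr : (0 : ℝ) < D.K := by exact_mod_cast (show 0 < D.K by omega)
  obtain ⟨q, hq1, hqK, hq2, hq3⟩ := D.special 0 D.hM
  simp only [zero_mul, zero_add] at hq2 hq3
  have hKN : D.K ≤ D.N := Nat.le_mul_of_pos_left _ D.hM
  have hqN : q < D.N := by omega
  have hm := D.mem 0 D.hM (q - 1) (by omega)
  simp only [zero_mul, zero_add] at hm
  have hne := D.ne (q - 1) (show q - 1 < D.N by omega)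
  rw [show q - 1 + 1 = q by omega, hq2] at hne
  have hlh := D.lohi 0 D.hM
  have hrc : ((q - 1 : ℕ) : ℝ) = q - 1 := by rw [Nat.cast_sub hq1]; norm_num
  refine ⟨q, by exact_mod_cast hq1, by exact_mod_cast hqN, ?_⟩
  intro Y hY
  rcases le_total (q : ℝ) Y with h5 | h5
  · rw [abs_of_nonneg (by linarith)] at hY ⊢
    rw [D.G_eq hqN h5 (by linarith), D.G_nat hqN.le, hq3, hq2]
    have : (D.lo 0 : ℝ) + 1 ≤ D.hi 0 := by exact_mod_cast hlh
    have h6 : 0 ≤ D.K * (Y - q) := by nlinarith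
    nlinarith
  · rw [abs_of_nonpos (by linarith)] at hY ⊢
    rw [D.G_nat hqN.le, D.G_eq (show q - 1 < D.N by omega) (x := Y) (by rw [hrc]; linarith)
      (by rw [hrc]; linarith), show q - 1 + 1 = q by omega, hq2, hrc]
    have : (D.lo 0 : ℝ) + 1 ≤ D.u (q - 1) := by
      have : D.lo 0 < D.u (q - 1) := by omega
      exact_mod_cast this
    have h6 : 0 ≤ D.K * (q - Y) := by nlinarith
    nlinarith

end Dat

end Pool.Agent.X194.BV
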