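import Pool.Agent.X194.BV.Approx

/-! A function which is very well approximated by good maps has an infinite right derivative. -/

namespace Pool.Agent.X194.BV

open Set Topology Filter

/-- `V`-shape at `c` -/
def VS (g : ℝ → ℝ) (n ℓ c : ℝ) : Prop :=
  ℓ ≤ c ∧ c + ℓ ≤ 1 ∧ ∀ y, |y - c| ≤ ℓ → g c + n * |y - c| ≤ g y

/-- good approximants with their tolerance -/
structure Good (g : ℝ → ℝ) (n : ℕ) (ℓ η : ℝ) : Prop where
  cont : Continuous g
  mem : ∀ x, g x ∈ Icc (0 : ℝ) 1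
  pos : 0 < ℓ
  loc : ∀ σ : ℝ, 0 ≤ σ → σ ≤ n → ∀ c : ℝ, 0 < c → c < 1 → ∀ δ > 0,
    (∀ y, |y - c| < δ → g c - σ * c ≤ g y - σ * y) → VS g n ℓ c
  ex : ∃ c, VS g n ℓ c
  hη : 0 < η
  hη1 : 100 * n * η ≤ ℓ
  hη2 : η * n ≤ 1
  hω : ∀ x y, |x - y| ≤ 8 * η → |g x - g y| ≤ ℓ / 100

/-- the state of the recursion -/
structure St (F : ℝ → ℝ) where
  n : ℕ
  g : ℝ → ℝ
  ℓ : ℝ
  η : ℝ
  c : ℝ
  hn : 1 ≤ n
  good : Good g n ℓ η
  close : ∀ x, 0 ≤ x → x ≤ 1 → |F x - g x| ≤ η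
  V : VS g n ℓ c

lemma step {F : ℝ → ℝ} (H : ∀ n : ℕ, 1 ≤ n → ∃ g ℓ η, Good g n ℓ η ∧
    ∀ x, 0 ≤ x → x ≤ 1 → |F x - g x| ≤ η) (s : St F) :
    ∃ t : St F, s.n < t.n ∧ t.η ≤ s.η / 2 ∧ |t.c - s.c| ≤ 3 * s.η ∧
      ∀ y, |y - s.c| ≤ s.ℓ → t.g t.c + (s.n - 1) * (y - t.c) ≤ t.g y := by
  have hη := s.good.hη
  obtain ⟨N, hN⟩ := exists_nat_gt (max (s.n : ℝ) (2 / s.η))
  have hN1 : (s.n : ℝ) < N := lt_of_le_of_lt (le_max_left _ _) hN
  have hN2 : 2 / s.η < N := lt_of_le_of_lt (le_max_right _ _) hN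
  have hn := s.hn
  have hn' : (1 : ℝ) ≤ s.n := by exact_mod_cast hn
  have hN3 : s.n < N := by exact_mod_cast hN1
  obtain ⟨g, ℓ, η, hg, hcl⟩ := H N (by omega)
  have hηs : η ≤ s.η / 2 := by
    rw [div_lt_iff₀ hη] at hN2
    have h1 := hg.hη2
    have h2 := hg.hη
    by_contra hcon
    push Not at hcon
    nlinarith
  obtain ⟨v1, v2, v3⟩ := s.V
  have hℓ := s.good.pos
  have h100 : 100 * s.η ≤ s.ℓ := by
    have := s.good.hη1
    nlinarith
  set σ : ℝ := s.n - 1 with hσ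
  have hσ0 : 0 ≤ σ := by linarith
  obtain ⟨c, hc, hmin⟩ := (isCompact_Icc (a := s.c - s.ℓ) (b := s.c + s.ℓ)).exists_isMinOn
    (f := fun y => g y - σ * y) (nonempty_Icc.2 (by linarith))
    ((hg.cont.sub (continuous_const.mul continuous_id)).continuousOn)
  have hmin' : ∀ y, |y - s.c| ≤ s.ℓ → g c - σ * c ≤ g y - σ * y := by
    intro y hy
    rw [abs_le] at hy
    exact hmin (show y ∈ Icc (s.c - s.ℓ) (s.c + s.ℓ) from ⟨by linarith, by linarith⟩)
  have hcabs : |c - s.c| ≤ s.ℓ := by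
    rw [abs_le]; exact ⟨by linarith [hc.1], by linarith [hc.2]⟩
  have h1 := hmin' s.c (by rw [sub_self, abs_zero]; exact hℓ.le)
  have h2 := v3 c hcabs
  have h3 := abs_le.1 (hcl c (by linarith [hc.1]) (by linarith [hc.2]))
  have h4 := abs_le.1 (s.close c (by linarith [hc.1]) (by linarith [hc.2]))
  have h5 := abs_le.1 (hcl s.c (by linarith) (by linarith))
  have h6 := abs_le.1 (s.close s.c (by linarith) (by linarith))
  have h7 : c - s.c ≤ |c - s.c| := le_abs_self _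
  have h8 : |c - s.c| ≤ 3 * s.η := by
    have e1 : s.n * |c - s.c| - σ * (c - s.c) ≤ 2 * (η + s.η) := by nlinarith
    have e2 : σ * (c - s.c) ≤ σ * |c - s.c| := mul_le_mul_of_nonneg_left h7 hσ0
    have e3 : (s.n : ℝ) * |c - s.c| - σ * |c - s.c| = |c - s.c| := by rw [hσ]; ring
    linarith
  have h9 := abs_le.1 h8
  have hV : VS g N ℓ c := by
    refine hg.loc σ hσ0 (by linarith) c (by linarith) (by linarith) (s.ℓ - 3 * s.η)
      (by linarith) ?_
    intro y hy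
    apply hmin'
    have : |y - s.c| ≤ |y - c| + |c - s.c| := by
      have := abs_add_le (y - c) (c - s.c)
      rwa [sub_add_sub_cancel] at this
    linarith
  refine ⟨⟨N, g, ℓ, η, c, by omega, hg, hcl, hV⟩, hN3, hηs, h8, ?_⟩
  intro y hy
  have := hmin' y hy
  show g c + σ * (y - c) ≤ g y
  linarith

theorem exists_deriv_top {F : ℝ → ℝ} (H : ∀ n : ℕ, 1 ≤ n → ∃ g ℓ η, Good g n ℓ η ∧
    ∀ x, 0 ≤ x → x ≤ 1 → |F x - g x| ≤ η) :
    ∃ x, 0 ≤ x ∧ x < 1 ∧ Tendsto (fun y => (F y - F x) / (y - x)) (𝓝[>] x) atTop := by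
  classical
  -- the initial state
  obtain ⟨g₀, ℓ₀, η₀, hg₀, hcl₀⟩ := H 1 le_rfl
  obtain ⟨c₀, hV₀⟩ := hg₀.ex
  let s₀ : St F := ⟨1, g₀, ℓ₀, η₀, c₀, le_rfl, hg₀, hcl₀, hV₀⟩
  choose nx hnx1 hnx2 hnx3 hnx4 using step H
  let s : ℕ → St F := fun j => Nat.rec s₀ (fun _ t => nx t) j
  have hs : ∀ j, s (j + 1) = nx (s j) := fun j => rfl
  have hn : ∀ j, j ≤ (s j).n := by
    intro j
    induction j with
    | zero => omega
    | succ j ih =>
      have := hnx1 (s j)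
      rw [← hs] at this
      omega
  have hη : ∀ j, 0 < (s j).η := fun j => (s j).good.hη
  have hηj : ∀ j, (s (j + 1)).η ≤ (s j).η / 2 := fun j => hnx2 (s j)
  have hηi : ∀ j i, (s (j + i)).η ≤ (s j).η / 2 ^ i := by
    intro j i
    induction i with
    | zero => simp
    | succ i ih =>
      rw [← add_assoc]
      refine (hηj _).trans ?_
      rw [pow_succ, ← div_div]
      linarith
  have hc : ∀ j, |(s (j + 1)).c - (s j).c| ≤ 3 * (s j).η := fun j => hnx3 (s j)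
  have hdist : ∀ j i, dist (s (j + i)).c (s (j + (i + 1))).c ≤ (6 * (s j).η) / 2 / 2 ^ i := by
    intro j i
    rw [dist_comm, Real.dist_eq]
    have h1 := hc (j + i)
    have h2 := hηi j i
    have h3 : 6 * (s j).η / 2 / 2 ^ i = 3 * ((s j).η / 2 ^ i) := by ring
    rw [h3]
    exact h1.trans (by linarith)
  have hcau : CauchySeq fun i => (s i).c := by
    have := cauchySeq_of_le_geometric_two (C := 6 * (s 0).η) (f := fun i => (s (0 + i)).c)
      (fun i => hdist 0 i)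
    simpa using this
  obtain ⟨x, hx⟩ := cauchySeq_tendsto_of_complete hcau
  have hxc : ∀ j, |(s j).c - x| ≤ 6 * (s j).η := by
    intro j
    have h1 : Tendsto (fun i => (s (j + i)).c) atTop (𝓝 x) := by
      have := (tendsto_add_atTop_iff_nat j).2 hx
      simpa [add_comm] using this
    have := dist_le_of_le_geometric_two_of_tendsto₀ (C := 6 * (s j).η)
      (f := fun i => (s (j + i)).c) (fun i => hdist j i) h1
    simpa [Real.dist_eq] using this
  have h100 : ∀ j, 100 * (s j).η ≤ (s j).ℓ := by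
    intro j
    have h1 := (s j).good.hη1
    have h2 : (1 : ℝ) ≤ (s j).n := by exact_mod_cast (s j).hn
    have h3 := hη j
    nlinarith
  have hℓ : ∀ j, 0 < (s j).ℓ := fun j => (s j).good.pos
  have hx0 : 0 ≤ x := by
    have h1 := abs_le.1 (hxc 0)
    have h2 := (s 0).V.1
    have h3 := h100 0
    have h4 := hη 0
    linarith [h1.1, h1.2]
  have hxlt : x < 1 := by
    have h1 := abs_le.1 (hxc 0)
    have h2 := (s 0).V.2.1
    have h3 := h100 0
    have h4 := hη 0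
    linarith [h1.1, h1.2]
  -- main estimate
  have hmain : ∀ j y, (s (j + 1)).ℓ / 2 ≤ y - x → y - x ≤ (s j).ℓ / 2 →
      ((s j).n - 2) * (y - x) ≤ F y - F x := by
    intro j y hy1 hy2
    have a1 := abs_le.1 (hxc j)
    have a2 := abs_le.1 (hxc (j + 1))
    have a3 := h100 j
    have a4 := h100 (j + 1)
    have a5 := hη j
    have a6 := hη (j + 1)
    have a7 := hℓ j
    have a8 := hℓ (j + 1)
    have a9 := (s j).V.1
    have a10 := (s j).V.2.1
    have hyc : |y - (s j).c| ≤ (s j).ℓ := by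
      rw [abs_le]; constructor <;> linarith
    have b1 := hnx4 (s j) y hyc
    rw [← hs] at b1
    have hy01 : 0 ≤ y ∧ y ≤ 1 := by
      constructor <;> linarith
    have b2 := abs_le.1 ((s (j + 1)).close y hy01.1 hy01.2)
    have b3 := abs_le.1 ((s (j + 1)).close x hx0 hxlt.le)
    have b4 := abs_le.1 ((s (j + 1)).good.hω x (s (j + 1)).c (by
      rw [abs_sub_comm]; exact (hxc (j + 1)).trans (by linarith)))
    have b5 := (s (j + 1)).good.hη1
    have b6 : ((s j).n : ℝ) ≤ (s (j + 1)).n := by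
      have := hnx1 (s j)
      rw [← hs] at this
      exact_mod_cast this.le
    have b7 : (1 : ℝ) ≤ (s j).n := by exact_mod_cast (s j).hn
    have b8 : ((s j).n - 1) * ((s (j + 1)).c - x) ≤ 6 * (s (j + 1)).ℓ / 100 := by
      have c1 : (((s j).n : ℝ) - 1) * ((s (j + 1)).c - x) ≤ ((s j).n - 1) * (6 * (s (j + 1)).η) :=
        mul_le_mul_of_nonneg_left a2.2 (by linarith)
      have c2 : (((s j).n : ℝ) - 1) * (6 * (s (j + 1)).η) ≤ (s (j + 1)).n * (6 * (s (j + 1)).η) :=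
        mul_le_mul_of_nonneg_right (by linarith) (by linarith)
      linarith
    have b9 : (((s j).n : ℝ) - 1) * (y - (s (j + 1)).c) =
        ((s j).n - 1) * (y - x) - ((s j).n - 1) * ((s (j + 1)).c - x) := by ring
    nlinarith
  -- the lengths tend to zero
  have hℓn : ∀ j, (s j).ℓ * (s j).n ≤ 1 := by
    intro j
    have h1 := (s j).V.2.2 ((s j).c + (s j).ℓ) (by
      rw [add_sub_cancel_left, abs_of_pos (hℓ j)])
    rw [add_sub_cancel_left, abs_of_pos (hℓ j)] at h1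
    have h2 := (s j).good.mem ((s j).c + (s j).ℓ)
    have h3 := (s j).good.mem (s j).c
    linarith [h2.2, h3.1]
  refine ⟨x, hx0, hxlt, tendsto_atTop.2 ?_⟩
  intro C
  obtain ⟨j₀, hj₀⟩ := exists_nat_gt (C + 2)
  have hev : ∀ᶠ y in 𝓝[>] x, y ∈ Ioo x (x + (s j₀).ℓ / 2) :=
    Ioo_mem_nhdsGT (by linarith [hℓ j₀])
  filter_upwards [hev] with y hy
  have hyx : 0 < y - x := by linarith [hy.1]
  -- least `k > j₀` with this property
  have hex' : ∃ i, (s (j₀ + i)).ℓ / 2 ≤ y - x := by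
    obtain ⟨k, hk⟩ := exists_nat_gt (1 / (y - x))
    refine ⟨k, ?_⟩
    have h1 := hℓn (j₀ + k)
    have h2 : (k : ℝ) ≤ (s (j₀ + k)).n := by
      have := hn (j₀ + k)
      exact_mod_cast (by omega : k ≤ (s (j₀ + k)).n)
    rw [div_lt_iff₀ hyx] at hk
    have h3 := hℓ (j₀ + k)
    by_contra hcon
    push Not at hcon
    have h4 : (y - x) < (s (j₀ + k)).ℓ := by linarith
    have h5 : (k : ℝ) * (y - x) ≤ (s (j₀ + k)).n * (s (j₀ + k)).ℓ := by
      apply mul_le_mul h2 h4.le hyx.le (by positivity)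
    linarith
  have hfind := Nat.find_spec hex'
  have hmin := fun i => Nat.find_min (m := i) hex'
  set i₀ := Nat.find hex' with hi₀
  have hi1 : i₀ ≠ 0 := by
    intro h0
    rw [h0] at hfind
    simp only [add_zero] at hfind
    linarith [hy.2]
  obtain ⟨i, hi⟩ : ∃ i, i₀ = i + 1 := ⟨i₀ - 1, by omega⟩
  have h1 := hmin i (by omega)
  push Not at h1
  rw [hi] at hfind
  have h2 := hmain (j₀ + i) y (by rw [add_assoc]; exact hfind) h1.le
  have h3 : (j₀ : ℝ) ≤ (s (j₀ + i)).n := by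
    have := hn (j₀ + i)
    exact_mod_cast (by omega : j₀ ≤ (s (j₀ + i)).n)
  rw [le_div_iff₀ hyx]
  refine le_trans ?_ h2
  exact mul_le_mul_of_nonneg_right (by linarith) hyx.le

end Pool.Agent.X194.BV
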