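import Mathlib

/-! Piecewise linear maps on a uniform grid and density of periodic points. -/

namespace Pool.Agent.X194.BV

open Set Topology Filter

/-- clamp to `[0,1]` -/
noncomputable def cl (x : ℝ) : ℝ := max 0 (min 1 x)

lemma continuous_cl : Continuous cl := by unfold cl; fun_prop

lemma cl_of_le {x : ℝ} (h : x ≤ 0) : cl x = 0 := by
  unfold cl; exact max_eq_left ((min_le_right _ _).trans h)

lemma cl_of_ge {x : ℝ} (h : 1 ≤ x) : cl x = 1 := by
  unfold cl; rw [min_eq_left h]; norm_num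

lemma cl_eq {x : ℝ} (h0 : 0 ≤ x) (h1 : x ≤ 1) : cl x = x := by
  unfold cl; rw [min_eq_right h1, max_eq_right h0]

/-- piecewise linear interpolation of `u` on `[0,N]` -/
noncomputable def pl (u : ℕ → ℕ) : ℕ → ℝ → ℝ
  | 0, _ => u 0
  | N + 1, x => pl u N x + ((u (N + 1) : ℝ) - u N) * cl (x - N)

lemma continuous_pl (u : ℕ → ℕ) (N : ℕ) : Continuous (pl u N) := by
  induction N with
  | zero => exact continuous_const
  | succ N ih =>
    show Continuous fun x => pl u N x + ((u (N + 1) : ℝ) - u N) * cl (x - N)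
    exact ih.add (continuous_const.mul (continuous_cl.comp (continuous_id.sub continuous_const)))

lemma pl_of_ge (u : ℕ → ℕ) (N : ℕ) {x : ℝ} (h : (N : ℝ) ≤ x) : pl u N x = u N := by
  induction N with
  | zero => rfl
  | succ N ih =>
    push_cast at h
    show pl u N x + ((u (N + 1) : ℝ) - u N) * cl (x - N) = u (N + 1)
    rw [ih (by linarith), cl_of_ge (by linarith)]
    ring

lemma pl_eq (u : ℕ → ℕ) {N r : ℕ} (hr : r < N) {x : ℝ} (h0 : (r : ℝ) ≤ x) (h1 : x ≤ r + 1) :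
    pl u N x = u r + (x - r) * ((u (r + 1) : ℝ) - u r) := by
  induction N with
  | zero => omega
  | succ N ih =>
    show pl u N x + ((u (N + 1) : ℝ) - u N) * cl (x - N) = _
    rcases Nat.lt_or_ge r N with h | h
    · have h2 : ((r : ℝ) + 1) ≤ N := by exact_mod_cast h
      rw [ih h, cl_of_le (by linarith)]
      ring
    · have hrN : r = N := by omega
      subst hrN
      rw [pl_of_ge u r h0, cl_eq (by linarith) (by linarith)]
      ring

/-- data: `M` blocks of `K` laps, `u` the values (multiples of `1/M`), `lo, hi` the hulls. -/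
structure Dat where
  M : ℕ
  K : ℕ
  u : ℕ → ℕ
  lo : ℕ → ℕ
  hi : ℕ → ℕ
  hM : 0 < M
  hK : 4 ≤ K
  ne : ∀ r < M * K, u r ≠ u (r + 1)
  mem : ∀ j < M, ∀ q ≤ K, lo j ≤ u (j * K + q) ∧ u (j * K + q) ≤ hi j
  hhi : ∀ j < M, hi j ≤ M
  special : ∀ j < M, ∃ q, 1 ≤ q ∧ q < K ∧ u (j * K + q) = lo j ∧ u (j * K + q + 1) = hi j
  lohi : ∀ j < M, lo j < hi j
  recur : ∀ j < M, ∀ h, lo j ≤ h → h < hi j →
    Relation.ReflTransGen (fun a b => a < M ∧ lo a ≤ b ∧ b < hi a) h j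

namespace Dat

variable (D : Dat)

/-- number of laps -/
def N : ℕ := D.M * D.K

/-- the edge relation -/
def E (a b : ℕ) : Prop := a < D.M ∧ D.lo a ≤ b ∧ b < D.hi a

/-- scaled map -/
noncomputable def G (x : ℝ) : ℝ := D.K * pl D.u D.N x

lemma continuous_G : Continuous D.G := continuous_const.mul (continuous_pl _ _)

lemma Npos : 0 < D.N := Nat.mul_pos D.hM (by have := D.hK; omega)

lemma G_eq {r : ℕ} (hr : r < D.N) {x : ℝ} (h0 : (r : ℝ) ≤ x) (h1 : x ≤ r + 1) :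
    D.G x = D.K * (D.u r + (x - r) * ((D.u (r + 1) : ℝ) - D.u r)) := by
  unfold G; rw [pl_eq D.u hr h0 h1]

lemma G_nat {r : ℕ} (hr : r ≤ D.N) : D.G r = D.K * D.u r := by
  rcases Nat.lt_or_ge r D.N with h | h
  · rw [D.G_eq h le_rfl (by linarith)]; ring
  · have : r = D.N := le_antisymm hr h
    subst this
    unfold G; rw [pl_of_ge _ _ le_rfl]

lemma lt_of_div {r : ℕ} (hr : r < D.N) : r / D.K < D.M := by
  have := D.hK
  rw [Nat.div_lt_iff_lt_mul (by omega)]
  exact hr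

/-- values over a lap -/
lemma u_mem {r : ℕ} (hr : r < D.N) :
    (D.lo (r / D.K) ≤ D.u r ∧ D.u r ≤ D.hi (r / D.K)) ∧
    (D.lo (r / D.K) ≤ D.u (r + 1) ∧ D.u (r + 1) ≤ D.hi (r / D.K)) := by
  have hK := D.hK
  have h1 := Nat.div_add_mod r D.K
  have h2 := Nat.mod_lt r (show 0 < D.K by omega)
  have h3 := D.mem (r / D.K) (D.lt_of_div hr) (r % D.K) h2.le
  have h4 := D.mem (r / D.K) (D.lt_of_div hr) (r % D.K + 1) h2
  have e1 : r / D.K * D.K + r % D.K = r := by rw [mul_comm]; exact h1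
  rw [← add_assoc, e1] at h4
  rw [e1] at h3
  exact ⟨h3, h4⟩

/-- the image of a point of a lap -/
lemma G_mem {r : ℕ} (hr : r < D.N) {x : ℝ} (h0 : (r : ℝ) ≤ x) (h1 : x ≤ r + 1) :
    (D.K : ℝ) * D.lo (r / D.K) ≤ D.G x ∧ D.G x ≤ D.K * D.hi (r / D.K) := by
  obtain ⟨⟨h2, h3⟩, h4, h5⟩ := D.u_mem hr
  have h2' : (D.lo (r / D.K) : ℝ) ≤ D.u r := by exact_mod_cast h2
  have h3' : (D.u r : ℝ) ≤ D.hi (r / D.K) := by exact_mod_cast h3
  have h4' : (D.lo (r / D.K) : ℝ) ≤ D.u (r + 1) := by exact_mod_cast h4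
  have h5' : (D.u (r + 1) : ℝ) ≤ D.hi (r / D.K) := by exact_mod_cast h5
  rw [D.G_eq hr h0 h1]
  have hK : (0 : ℝ) ≤ D.K := Nat.cast_nonneg _
  constructor
  · refine mul_le_mul_of_nonneg_left ?_ hK
    nlinarith
  · refine mul_le_mul_of_nonneg_left ?_ hK
    nlinarith

/-- the closed block -/
def blk (j : ℕ) : Set ℝ := Icc ((j * D.K : ℕ) : ℝ) (((j + 1) * D.K : ℕ) : ℝ)

lemma exists_lap {x : ℝ} (h0 : 0 ≤ x) (h1 : x ≤ D.N) :
    ∃ r < D.N, (r : ℝ) ≤ x ∧ x ≤ r + 1 := by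
  rcases h1.lt_or_eq with h | h
  · refine ⟨⌊x⌋₊, ?_, Nat.floor_le h0, (Nat.lt_floor_add_one x).le⟩
    exact (Nat.floor_lt h0).2 h
  · have := D.Npos
    refine ⟨D.N - 1, by omega, ?_, ?_⟩
    · rw [h, Nat.cast_sub (by omega)]; push_cast; linarith
    · rw [h, Nat.cast_sub (by omega)]; push_cast; linarith

lemma lap_in_block {x : ℝ} {j : ℕ} (hj : j < D.M) (hx : x ∈ D.blk j) :
    ∃ r < D.N, r / D.K = j ∧ (r : ℝ) ≤ x ∧ x ≤ r + 1 := by
  have hK := D.hK
  obtain ⟨h0, h1⟩ := hx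
  have hle : (j + 1) * D.K ≤ D.N := Nat.mul_le_mul_right _ hj
  rcases h1.lt_or_eq with h | h
  · have hx0 : 0 ≤ x := le_trans (Nat.cast_nonneg _) h0
    have h2 : j * D.K ≤ ⌊x⌋₊ := Nat.le_floor h0
    have h3 : ⌊x⌋₊ < (j + 1) * D.K := (Nat.floor_lt hx0).2 h
    refine ⟨⌊x⌋₊, by omega, ?_, Nat.floor_le hx0, (Nat.lt_floor_add_one x).le⟩
    exact Nat.div_eq_of_lt_le h2 h3
  · have h4 : (j + 1) * D.K = j * D.K + D.K := by ring
    refine ⟨(j + 1) * D.K - 1, by omega, ?_, ?_, ?_⟩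
    · exact Nat.div_eq_of_lt_le (by omega) (by omega)
    · rw [h, Nat.cast_sub (by omega)]; push_cast; linarith
    · rw [h, Nat.cast_sub (by omega)]; push_cast; linarith

/-- blocks are mapped into the union of their successors -/
lemma block_step {x : ℝ} {j : ℕ} (hj : j < D.M) (hx : x ∈ D.blk j) :
    ∃ h, D.E j h ∧ h < D.M ∧ D.G x ∈ D.blk h := by
  have hK := D.hK
  obtain ⟨r, hr, hrj, h0, h1⟩ := D.lap_in_block hj hx
  obtain ⟨h2, h3⟩ := D.G_mem hr h0 h1
  rw [hrj] at h2 h3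
  have hKr : (0 : ℝ) < D.K := by exact_mod_cast (show 0 < D.K by omega)
  have hlh := D.lohi j hj
  have hhi := D.hhi j hj
  have hG0 : 0 ≤ D.G x := le_trans (by positivity) h2
  rcases h3.lt_or_eq with h | h
  · set q := ⌊D.G x / D.K⌋₊ with hq
    have h4 : (q : ℝ) ≤ D.G x / D.K := Nat.floor_le (by positivity)
    have h5 : D.G x / D.K < q + 1 := Nat.lt_floor_add_one _
    rw [le_div_iff₀ hKr] at h4
    rw [div_lt_iff₀ hKr] at h5
    have h6 : D.lo j ≤ q := by
      refine Nat.le_floor ?_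
      rw [le_div_iff₀ hKr]; linarith
    have h7 : q < D.hi j := by
      rw [hq, Nat.floor_lt (by positivity), div_lt_iff₀ hKr]; linarith
    refine ⟨q, ⟨hj, h6, h7⟩, by omega, ?_, ?_⟩
    · push_cast; linarith
    · push_cast; linarith
  · refine ⟨D.hi j - 1, ⟨hj, by omega, by omega⟩, by omega, ?_, ?_⟩
    · push_cast [Nat.cast_sub (show 1 ≤ D.hi j by omega)]
      rw [h]
      nlinarith
    · rw [h]
      have : D.hi j - 1 + 1 = D.hi j := by omega
      rw [this]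
      push_cast
      linarith

lemma orbit_in {x : ℝ} {j : ℕ} (hj : j < D.M) (hx : x ∈ D.blk j) (n : ℕ) :
    ∃ l < D.M, Relation.ReflTransGen D.E j l ∧ D.G^[n] x ∈ D.blk l := by
  induction n with
  | zero => exact ⟨j, hj, Relation.ReflTransGen.refl, hx⟩
  | succ n ih =>
    obtain ⟨l, hl, hjl, hxl⟩ := ih
    obtain ⟨h, hE, hh, hx'⟩ := D.block_step hl hxl
    rw [Function.iterate_succ_apply']
    exact ⟨h, hh, hjl.tail hE, hx'⟩

/-- reachability is symmetric -/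
lemma symm {a b : ℕ} (h : Relation.ReflTransGen D.E a b) : Relation.ReflTransGen D.E b a := by
  induction h with
  | refl => exact Relation.ReflTransGen.refl
  | tail _ hE ih =>
    exact (D.recur _ hE.1 _ hE.2.1 hE.2.2).trans ih

/-- covering -/
lemma special_cover {j h : ℕ} (hE : D.E j h) : D.blk h ⊆ D.G '' D.blk j := by
  have hK := D.hK
  obtain ⟨q, hq1, hqK, hq2, hq3⟩ := D.special j hE.1
  have hle : (j + 1) * D.K ≤ D.N := Nat.mul_le_mul_right _ hE.1
  have h4 : (j + 1) * D.K = j * D.K + D.K := by ring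
  set r := j * D.K + q with hr
  have hrN : r < D.N := by omega
  have h5 := intermediate_value_Icc (f := D.G) (a := (r : ℝ)) (b := ((r + 1 : ℕ) : ℝ))
    (by push_cast; linarith) D.continuous_G.continuousOn
  rw [D.G_nat hrN.le, D.G_nat (by omega), hq2, hq3] at h5
  intro y hy
  have hy' : y ∈ Icc ((D.K : ℝ) * D.lo j) (D.K * D.hi j) := by
    have e1 : (D.lo j : ℝ) ≤ h := by exact_mod_cast hE.2.1
    have e2 : (h : ℝ) + 1 ≤ D.hi j := by exact_mod_cast hE.2.2
    have hKr : (0 : ℝ) ≤ D.K := Nat.cast_nonneg _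
    obtain ⟨y1, y2⟩ := hy
    push_cast at y1 y2
    constructor <;> nlinarith
  obtain ⟨x, hx, hxy⟩ := h5 hy'
  refine ⟨x, ⟨?_, ?_⟩, hxy⟩
  · refine le_trans ?_ hx.1
    exact_mod_cast (by omega : j * D.K ≤ r)
  · refine le_trans hx.2 ?_
    exact_mod_cast (by omega : r + 1 ≤ (j + 1) * D.K)

lemma path_cover {a b : ℕ} (h : Relation.ReflTransGen D.E a b) :
    ∃ n, D.blk b ⊆ D.G^[n] '' D.blk a := by
  induction h with
  | refl => exact ⟨0, by simp⟩
  | tail _ hE ih =>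
    obtain ⟨n, hn⟩ := ih
    refine ⟨n + 1, ?_⟩
    rw [Function.iterate_succ', image_comp]
    exact (D.special_cover hE).trans (image_mono hn)

/-- every lap covers a block -/
lemma lap_cover {r : ℕ} (hr : r < D.N) :
    ∃ h, D.E (r / D.K) h ∧ D.blk h ⊆ D.G '' Icc (r : ℝ) ((r : ℝ) + 1) := by
  obtain ⟨⟨h2, h3⟩, h4, h5⟩ := D.u_mem hr
  have hne := D.ne r hr
  have hi := intermediate_value_uIcc (f := D.G) (a := (r : ℝ)) (b := ((r + 1 : ℕ) : ℝ))
    D.continuous_G.continuousOn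
  rw [D.G_nat hr.le, D.G_nat hr] at hi
  have hu : uIcc (r : ℝ) ((r + 1 : ℕ) : ℝ) = Icc (r : ℝ) ((r : ℝ) + 1) := by
    push_cast
    exact uIcc_of_le (by linarith)
  rw [hu] at hi
  refine ⟨min (D.u r) (D.u (r + 1)), ⟨D.lt_of_div hr, by omega, by omega⟩, fun y hy => hi ?_⟩
  obtain ⟨y1, y2⟩ := hy
  have hKr : (0 : ℝ) ≤ D.K := Nat.cast_nonneg _
  rcases lt_or_gt_of_ne hne with h | h
  · rw [min_eq_left h.le] at y1 y2
    have e1 : (D.u r : ℝ) + 1 ≤ D.u (r + 1) := by exact_mod_cast h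
    rw [uIcc_of_le (by nlinarith)]
    push_cast at y1 y2
    constructor <;> nlinarith
  · rw [min_eq_right h.le] at y1 y2
    have e1 : (D.u (r + 1) : ℝ) + 1 ≤ D.u r := by exact_mod_cast h
    rw [uIcc_of_ge (by nlinarith)]
    push_cast at y1 y2
    constructor <;> nlinarith

/-- growth -/
lemma grow (k : ℕ) : ∀ a b : ℝ, 0 ≤ a → b ≤ D.N → 2 / 2 ^ k ≤ b - a →
    ∃ n r : ℕ, r < D.N ∧ Icc (r : ℝ) (r + 1) ⊆ D.G^[n] '' Icc a b := by
  have hK := D.hK
  have hKr : (4 : ℝ) ≤ D.K := by exact_mod_cast hK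
  -- the case of a full lap
  have full : ∀ a b : ℝ, b ≤ D.N → (∃ r : ℕ, a ≤ r ∧ (r : ℝ) + 1 ≤ b) →
      ∃ n r : ℕ, r < D.N ∧ Icc (r : ℝ) (r + 1) ⊆ D.G^[n] '' Icc a b := by
    rintro a b hb ⟨r, h1, h2⟩
    refine ⟨0, r, ?_, ?_⟩
    · have : ((r : ℝ) + 1) ≤ D.N := h2.trans hb
      exact_mod_cast this
    · simp only [Function.iterate_zero, image_id]
      exact Icc_subset_Icc h1 h2
  induction k with
  | zero =>
    intro a b ha hb hab
    refine full a b hb ⟨⌈a⌉₊, Nat.le_ceil a, ?_⟩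
    have := Nat.ceil_lt_add_one ha
    norm_num at hab
    linarith
  | succ k ih =>
    intro a b ha hb hab
    by_cases hfull : ∃ r : ℕ, a ≤ r ∧ (r : ℝ) + 1 ≤ b
    · exact full a b hb hfull
    push Not at hfull
    have hpow : (0 : ℝ) < 2 ^ k := by positivity
    have hab' : 1 / 2 ^ k ≤ b - a := by
      rw [pow_succ] at hab
      have : (2 : ℝ) / (2 ^ k * 2) = 1 / 2 ^ k := by field_simp
      rwa [this] at hab
    have hlt : a < b := by
      have : 0 < 1 / (2 : ℝ) ^ k := by positivity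
      linarith
    -- a subinterval of a lap of at least half the length
    obtain ⟨r, a', b', hr, h1, h2, h3, h4, h5⟩ : ∃ (r : ℕ) (a' b' : ℝ), r < D.N ∧ a ≤ a' ∧
        b' ≤ b ∧ (r : ℝ) ≤ a' ∧ b' ≤ r + 1 ∧ (b - a) / 2 ≤ b' - a' := by
      have hfl := Nat.floor_le ha
      have hfl2 := Nat.lt_floor_add_one a
      rcases le_or_gt b (⌊a⌋₊ + 1) with h | h
      · refine ⟨⌊a⌋₊, a, b, ?_, le_rfl, le_rfl, hfl, h, by linarith⟩
        have : (⌊a⌋₊ : ℝ) < D.N := lt_of_le_of_lt hfl (lt_of_lt_of_le hlt hb)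
        exact_mod_cast this
      · have h6 := hfull (⌊a⌋₊ + 1) (by push_cast; linarith)
        push_cast at h6
        rcases le_total ((b - a) / 2) (b - (⌊a⌋₊ + 1)) with h7 | h7
        · refine ⟨⌊a⌋₊ + 1, ⌊a⌋₊ + 1, b, ?_, hfl2.le, le_rfl, by push_cast; linarith,
            by push_cast; linarith, h7⟩
          have : ((⌊a⌋₊ : ℝ) + 1) < D.N := lt_of_lt_of_le h hb
          exact_mod_cast this
        · refine ⟨⌊a⌋₊, a, ⌊a⌋₊ + 1, ?_, le_rfl, h.le, hfl, le_rfl, by linarith⟩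
          have : (⌊a⌋₊ : ℝ) < D.N := lt_of_le_of_lt hfl (lt_of_lt_of_le hlt hb)
          exact_mod_cast this
    have hab2 : a' ≤ b' := by linarith
    -- the image
    have hi := intermediate_value_uIcc (f := D.G) (a := a') (b := b') D.continuous_G.continuousOn
    rw [uIcc_of_le hab2] at hi
    have e1 := D.G_eq hr (x := a') h3 (by linarith)
    have e2 := D.G_eq hr (x := b') (by linarith) h4
    have e3 : D.G b' - D.G a' = D.K * (b' - a') * ((D.u (r + 1) : ℝ) - D.u r) := by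
      rw [e1, e2]; ring
    have hdiff : 2 * (b - a) ≤ |D.G b' - D.G a'| := by
      have hne := D.ne r hr
      have h8 : (1 : ℝ) ≤ |(D.u (r + 1) : ℝ) - D.u r| := by
        rcases lt_or_gt_of_ne hne with h | h
        · have : (D.u r : ℝ) + 1 ≤ D.u (r + 1) := by exact_mod_cast h
          rw [abs_of_pos (by linarith)]; linarith
        · have : (D.u (r + 1) : ℝ) + 1 ≤ D.u r := by exact_mod_cast h
          rw [abs_of_neg (by linarith)]; linarith
      rw [e3, abs_mul, abs_of_nonneg (by nlinarith : 0 ≤ (D.K : ℝ) * (b' - a'))]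
      have h9 : 2 * (b - a) ≤ D.K * (b' - a') := by nlinarith
      have h10 : 0 ≤ (D.K : ℝ) * (b' - a') := by nlinarith
      nlinarith
    have hrng : ∀ x, (r : ℝ) ≤ x → x ≤ r + 1 → 0 ≤ D.G x ∧ D.G x ≤ D.N := by
      intro x hx0 hx1
      obtain ⟨g1, g2⟩ := D.G_mem hr hx0 hx1
      refine ⟨le_trans (by positivity) g1, g2.trans ?_⟩
      have := D.hhi (r / D.K) (D.lt_of_div hr)
      have h11 : (D.hi (r / D.K) : ℝ) ≤ D.M := by exact_mod_cast this
      unfold N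
      push_cast
      nlinarith
    have ga := hrng a' h3 (by linarith)
    have gb := hrng b' (by linarith) h4
    have hab3 : 2 * (1 / 2 ^ k) ≤ |D.G b' - D.G a'| := le_trans (by linarith) hdiff
    have hlen : 2 / 2 ^ k ≤ max (D.G a') (D.G b') - min (D.G a') (D.G b') := by
      rw [max_sub_min_eq_abs]
      have : (2 : ℝ) / 2 ^ k = 2 * (1 / 2 ^ k) := by ring
      rw [this, abs_sub_comm]
      rwa [abs_sub_comm] at hab3
    obtain ⟨n, r', hr', hsub⟩ := ih (min (D.G a') (D.G b')) (max (D.G a') (D.G b'))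
      (le_min ga.1 gb.1) (max_le ga.2 gb.2) hlen
    refine ⟨n + 1, r', hr', hsub.trans ?_⟩
    rw [Function.iterate_succ, image_comp]
    refine image_mono ?_
    have : Icc (min (D.G a') (D.G b')) (max (D.G a') (D.G b')) = uIcc (D.G a') (D.G b') := rfl
    rw [this]
    exact hi.trans (image_mono (Icc_subset_Icc h1 h2))

/-- periodic points of `G` in every interval -/
lemma exists_periodic {a b : ℝ} (ha : 0 ≤ a) (hab : a < b) (hb : b ≤ D.N) :
    ∃ x ∈ Icc a b, ∃ n, 0 < n ∧ D.G^[n] x = x := by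
  have hK := D.hK
  -- shrink into a block
  set j := ⌊a⌋₊ / D.K with hj
  have haN : ⌊a⌋₊ < D.N := (Nat.floor_lt ha).2 (lt_of_lt_of_le hab hb)
  have hjM : j < D.M := D.lt_of_div haN
  have hfl := Nat.floor_le ha
  have hfl2 := Nat.lt_floor_add_one a
  have e1 : j * D.K ≤ ⌊a⌋₊ := Nat.div_mul_le_self _ _
  have e2 : ⌊a⌋₊ < (j + 1) * D.K := by
    have h1 := Nat.div_add_mod ⌊a⌋₊ D.K
    have h2 := Nat.mod_lt ⌊a⌋₊ (show 0 < D.K by omega)
    have h3 : (j + 1) * D.K = D.K * (⌊a⌋₊ / D.K) + D.K := by rw [hj]; ring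
    omega
  have e1' : ((j * D.K : ℕ) : ℝ) ≤ a := le_trans (by exact_mod_cast e1) hfl
  have e2' : a < (((j + 1) * D.K : ℕ) : ℝ) := by
    have : ((⌊a⌋₊ : ℝ) + 1) ≤ (((j + 1) * D.K : ℕ) : ℝ) := by exact_mod_cast e2
    linarith
  set b' := min b (((j + 1) * D.K : ℕ) : ℝ) with hb'
  have hab' : a < b' := lt_min hab e2'
  have hWblk : Icc a b' ⊆ D.blk j := Icc_subset_Icc e1' (min_le_right _ _)
  have hWN : b' ≤ D.N := (min_le_left _ _).trans hb
  obtain ⟨k, hk⟩ : ∃ k : ℕ, 2 / 2 ^ k ≤ b' - a := by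
    obtain ⟨k, hk⟩ := exists_pow_lt_of_lt_one (show 0 < (b' - a) / 2 by linarith)
      (by norm_num : (1 / 2 : ℝ) < 1)
    refine ⟨k, ?_⟩
    rw [one_div, inv_pow] at hk
    rw [div_eq_mul_inv]
    linarith
  obtain ⟨n, r, hr, hlap⟩ := D.grow k a b' ha hWN hk
  obtain ⟨h, hE, hcov⟩ := D.lap_cover hr
  -- the block of the lap is reachable
  have hreach : Relation.ReflTransGen D.E j (r / D.K) := by
    obtain ⟨x, hx, hxr⟩ := hlap (show ((r : ℝ) + 1 / 2) ∈ Icc (r : ℝ) (r + 1) by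
      constructor <;> linarith)
    obtain ⟨l, hl, hjl, hxl⟩ := D.orbit_in hjM (hWblk hx) n
    rw [hxr] at hxl
    obtain ⟨g1, g2⟩ := hxl
    have g3 : l * D.K ≤ r := by
      by_contra hcon
      push Not at hcon
      have : ((r : ℝ) + 1) ≤ ((l * D.K : ℕ) : ℝ) := by exact_mod_cast hcon
      linarith
    have g4 : r < (l + 1) * D.K := by
      by_contra hcon
      push Not at hcon
      have : (((l + 1) * D.K : ℕ) : ℝ) ≤ r := by exact_mod_cast hcon
      linarith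
    have : r / D.K = l := Nat.div_eq_of_lt_le g3 g4
    rw [this]; exact hjl
  have hback : Relation.ReflTransGen D.E h j := D.symm (hreach.tail hE)
  obtain ⟨p, hp⟩ := D.path_cover hback
  have hfin : Icc a b' ⊆ D.G^[p + (1 + n)] '' Icc a b' := by
    have h1 : D.G^[p + (1 + n)] '' Icc a b' = D.G^[p] '' (D.G '' (D.G^[n] '' Icc a b')) := by
      rw [← image_comp, ← image_comp]
      congr 1
      rw [Function.iterate_add, Function.iterate_add]
      rfl
    rw [h1]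
    refine hWblk.trans (hp.trans (image_mono (hcov.trans (image_mono hlap))))
  -- fixed point by the intermediate value theorem
  obtain ⟨x₁, hx₁, hx₁'⟩ := hfin (left_mem_Icc.2 hab'.le)
  obtain ⟨x₂, hx₂, hx₂'⟩ := hfin (right_mem_Icc.2 hab'.le)
  have hcont : Continuous fun x => D.G^[p + (1 + n)] x - x :=
    (D.continuous_G.iterate _).sub continuous_id
  have hsub : uIcc x₁ x₂ ⊆ Icc a b' := uIcc_subset_Icc hx₁ hx₂
  have hz : (0 : ℝ) ∈ (fun x => D.G^[p + (1 + n)] x - x) '' uIcc x₁ x₂ := by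
    refine intermediate_value_uIcc hcont.continuousOn ?_
    rw [mem_uIcc]
    left
    constructor
    · show D.G^[p + (1 + n)] x₁ - x₁ ≤ 0
      rw [hx₁']; linarith [hx₁.1]
    · show 0 ≤ D.G^[p + (1 + n)] x₂ - x₂
      rw [hx₂']; linarith [hx₂.2]
  obtain ⟨x, hx, hx0⟩ := hz
  have hxI := hsub hx
  refine ⟨x, ⟨hxI.1, hxI.2.trans (min_le_left _ _)⟩, p + (1 + n), by omega, ?_⟩
  have : D.G^[p + (1 + n)] x - x = 0 := hx0
  linarith

end Dat

end Pool.Agent.X194.BV
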