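import Pool.Agent.X194.BV.PL

/-! Walks with distinct consecutive values, and the construction of the combinatorial data. -/

namespace Pool.Agent.X194.BV

open Set

/-- prepend a value -/
def cons (a : ℕ) (z : ℕ → ℕ) : ℕ → ℕ
  | 0 => a
  | q + 1 => z q

lemma exists_third {lo hi : ℕ} (x y : ℕ) (h : lo + 2 ≤ hi) :
    ∃ w, lo ≤ w ∧ w ≤ hi ∧ w ≠ x ∧ w ≠ y := by
  by_cases h1 : lo ≠ x ∧ lo ≠ y
  · exact ⟨lo, le_rfl, by omega, h1⟩
  by_cases h2 : lo + 1 ≠ x ∧ lo + 1 ≠ y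
  · exact ⟨lo + 1, by omega, by omega, h2⟩
  · exact ⟨lo + 2, by omega, by omega, by omega, by omega⟩

lemma walk0 {lo hi : ℕ} (h : lo + 2 ≤ hi) (n : ℕ) (hn : 2 ≤ n) :
    ∀ x y, lo ≤ x → x ≤ hi → lo ≤ y → y ≤ hi →
    ∃ z : ℕ → ℕ, z 0 = x ∧ z n = y ∧ (∀ q < n, z q ≠ z (q + 1)) ∧
      ∀ q ≤ n, lo ≤ z q ∧ z q ≤ hi := by
  induction n, hn using Nat.le_induction with
  | base =>
    intro x y h1 h2 h3 h4
    obtain ⟨w, hw1, hw2, hw3, hw4⟩ := exists_third x y h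
    refine ⟨cons x (cons w fun _ => y), rfl, rfl, ?_, ?_⟩
    · intro q hq
      interval_cases q
      · exact hw3.symm
      · exact hw4
    · intro q hq
      interval_cases q
      · exact ⟨h1, h2⟩
      · exact ⟨hw1, hw2⟩
      · exact ⟨h3, h4⟩
  | succ n hn ih =>
    intro x y h1 h2 h3 h4
    obtain ⟨w, hw1, hw2, hw3, -⟩ := exists_third x x h
    obtain ⟨z, z0, zn, zne, zm⟩ := ih w y hw1 hw2 h3 h4
    refine ⟨cons x z, rfl, zn, ?_, ?_⟩
    · intro q hq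
      rcases q with _ | q
      · show x ≠ z 0
        rw [z0]; exact hw3.symm
      · exact zne q (by omega)
    · intro q hq
      rcases q with _ | q
      · exact ⟨h1, h2⟩
      · exact zm q (by omega)

lemma walk {lo hi : ℕ} (h : lo + 2 ≤ hi) {K : ℕ} (hK : 5 ≤ K) {x y : ℕ} (h1 : lo ≤ x)
    (h2 : x ≤ hi) (h3 : lo ≤ y) (h4 : y ≤ hi) :
    ∃ z : ℕ → ℕ, z 0 = x ∧ z K = y ∧ (∀ q < K, z q ≠ z (q + 1)) ∧
      (∀ q ≤ K, lo ≤ z q ∧ z q ≤ hi) ∧ ∃ q, 1 ≤ q ∧ q < K ∧ z q = lo ∧ z (q + 1) = hi := by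
  obtain ⟨w, hw1, hw2, hw3, hw4⟩ := exists_third x lo h
  obtain ⟨z, z0, zn, zne, zm⟩ := walk0 h (K - 3) (by omega) hi y (by omega) le_rfl h3 h4
  refine ⟨cons x (cons w (cons lo z)), rfl, ?_, ?_, ?_, 2, by norm_num, by omega, rfl, z0⟩
  · obtain ⟨k, rfl⟩ : ∃ k, K = k + 3 := ⟨K - 3, by omega⟩
    exact zn
  · intro q hq
    rcases q with _ | _ | _ | q
    · exact hw3.symm
    · exact hw4
    · show lo ≠ z 0
      rw [z0]; omega
    · exact zne q (by omega)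
  · intro q hq
    rcases q with _ | _ | _ | q
    · exact ⟨h1, h2⟩
    · exact ⟨hw1, hw2⟩
    · exact ⟨le_rfl, (show lo ≤ hi by omega)⟩
    · exact zm q (by omega)

/-- base data -/
structure Base where
  m : ℕ
  K : ℕ
  lo : ℕ → ℕ
  hi : ℕ → ℕ
  v : ℕ → ℕ
  hm : 0 < m
  hK : 5 ≤ K
  lohi : ∀ i < m, lo i < hi i
  hhi : ∀ i < m, hi i ≤ m
  hv : ∀ j < 2 * m, (lo (j / 2) ≤ v j ∧ v j ≤ hi (j / 2)) ∧
    (lo (j / 2) ≤ v (j + 1) ∧ v (j + 1) ≤ hi (j / 2))
  recur : ∀ i < m, ∀ k, lo i ≤ k → k < hi i →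
    Relation.ReflTransGen (fun a b => a < m ∧ lo a ≤ b ∧ b < hi a) k i

lemma Base.lift (B : Base) {a b : ℕ}
    (h : Relation.ReflTransGen (fun a b => a < B.m ∧ B.lo a ≤ b ∧ b < B.hi a) a b) :
    ∀ k, k / 2 = a → a = b ∨ ∀ j, j / 2 = b → Relation.ReflTransGen
      (fun a b => a < 2 * B.m ∧ 2 * B.lo (a / 2) ≤ b ∧ b < 2 * B.hi (a / 2)) k j := by
  induction h with
  | refl => intro k _; exact Or.inl rfl
  | tail _ hE ih =>
    rename_i b c _
    obtain ⟨h1, h2, h3⟩ := hE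
    intro k hk
    right
    intro j hj
    rcases ih k hk with h | h
    · refine Relation.ReflTransGen.single ⟨?_, ?_, ?_⟩
      · omega
      · rw [hk, h]; omega
      · rw [hk, h]; omega
    · refine (h (2 * b) (by omega)).tail ⟨by omega, ?_, ?_⟩
      · rw [show 2 * b / 2 = b by omega]; omega
      · rw [show 2 * b / 2 = b by omega]; omega

theorem Base.toDat (B : Base) : ∃ D : Dat, D.M = 2 * B.m ∧ D.K = B.K ∧
    (∀ j, D.lo j = 2 * B.lo (j / 2)) ∧ (∀ j, D.hi j = 2 * B.hi (j / 2)) := by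
  have hK := B.hK
  have hz : ∀ j, ∃ z : ℕ → ℕ, z 0 = 2 * B.v j ∧ (j < 2 * B.m → z B.K = 2 * B.v (j + 1) ∧
      (∀ q < B.K, z q ≠ z (q + 1)) ∧
      (∀ q ≤ B.K, 2 * B.lo (j / 2) ≤ z q ∧ z q ≤ 2 * B.hi (j / 2)) ∧
      ∃ q, 1 ≤ q ∧ q < B.K ∧ z q = 2 * B.lo (j / 2) ∧ z (q + 1) = 2 * B.hi (j / 2)) := by
    intro j
    by_cases hj : j < 2 * B.m
    · obtain ⟨⟨h1, h2⟩, h3, h4⟩ := B.hv j hj
      have h5 := B.lohi (j / 2) (by omega)
      obtain ⟨z, z0, zK, z1, z2, z3⟩ := walk (lo := 2 * B.lo (j / 2)) (hi := 2 * B.hi (j / 2))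
        (by omega) B.hK (x := 2 * B.v j) (y := 2 * B.v (j + 1)) (by omega) (by omega) (by omega)
        (by omega)
      exact ⟨z, z0, fun _ => ⟨zK, z1, z2, z3⟩⟩
    · exact ⟨fun _ => 2 * B.v j, rfl, fun h => absurd h hj⟩
  choose z z0 hz using hz
  have hu : ∀ j < 2 * B.m, ∀ q ≤ B.K, z ((j * B.K + q) / B.K) ((j * B.K + q) % B.K) = z j q := by
    intro j hj q hq
    rcases hq.lt_or_eq with h | h
    · rw [show (j * B.K + q) / B.K = j by
        rw [mul_comm, Nat.mul_add_div (by omega), Nat.div_eq_of_lt h, add_zero],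
        show (j * B.K + q) % B.K = q by
        rw [mul_comm, Nat.mul_add_mod, Nat.mod_eq_of_lt h]]
    · subst h
      rw [show (j * B.K + B.K) = (j + 1) * B.K by ring, Nat.mul_div_cancel _ (by omega),
        Nat.mul_mod_left, z0, (hz j hj).1]
  have hr : ∀ r, r / B.K * B.K + r % B.K = r := by
    intro r
    have := Nat.div_add_mod r B.K
    rwa [mul_comm] at this
  refine ⟨{ M := 2 * B.m, K := B.K, u := fun r => z (r / B.K) (r % B.K),
            lo := fun j => 2 * B.lo (j / 2), hi := fun j => 2 * B.hi (j / 2),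
            hM := by have := B.hm; omega, hK := by omega,
            ne := ?_, mem := ?_, hhi := ?_, special := ?_, lohi := ?_, recur := ?_ },
    rfl, rfl, fun _ => rfl, fun _ => rfl⟩
  · intro r hr'
    have hj : r / B.K < 2 * B.m := by
      rw [Nat.div_lt_iff_lt_mul (by omega)]; exact hr'
    have hq := Nat.mod_lt r (show 0 < B.K by omega)
    have h1 := hu _ hj _ hq.le
    have h2 := hu _ hj (r % B.K + 1) hq
    rw [← add_assoc, hr] at h2
    show z (r / B.K) (r % B.K) ≠ z ((r + 1) / B.K) ((r + 1) % B.K)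
    rw [h2]
    exact (hz _ hj).2.1 _ hq
  · intro j hj q hq
    show 2 * B.lo (j / 2) ≤ z ((j * B.K + q) / B.K) ((j * B.K + q) % B.K) ∧ _
    rw [hu j hj q hq]
    exact (hz j hj).2.2.1 q hq
  · intro j hj
    have := B.hhi (j / 2) (by omega)
    show 2 * B.hi (j / 2) ≤ 2 * B.m
    omega
  · intro j hj
    obtain ⟨q, h1, h2, h3, h4⟩ := (hz j hj).2.2.2
    refine ⟨q, h1, h2, ?_, ?_⟩
    · show z ((j * B.K + q) / B.K) ((j * B.K + q) % B.K) = _
      rw [hu j hj q h2.le, h3]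
    · show z ((j * B.K + q + 1) / B.K) ((j * B.K + q + 1) % B.K) = _
      rw [add_assoc, hu j hj (q + 1) h2, h4]
  · intro j hj
    have := B.lohi (j / 2) (by omega)
    show 2 * B.lo (j / 2) < 2 * B.hi (j / 2)
    omega
  · intro j hj h h1 h2
    have h3 := B.recur (j / 2) (by omega) (h / 2) (by omega) (by omega)
    rcases B.lift h3 h rfl with h4 | h4
    · have hhm : h / 2 < B.m := by omega
      refine Relation.ReflTransGen.single ⟨by omega, ?_, ?_⟩
      · show 2 * B.lo (h / 2) ≤ j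
        rw [h4]
        rw [← h4]
        have h5 : B.lo (j / 2) ≤ h / 2 := by omega
        rw [← h4] at h5
        omega
      · show j < 2 * B.hi (h / 2)
        have h5 : h / 2 < B.hi (j / 2) := by omega
        rw [← h4] at h5
        omega
    · exact h4 j rfl

end Pool.Agent.X194.BV
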